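import Mathlib
import Pool.Agent.H14.QRatio

set_option autoImplicit false

namespace Pool.Agent.Results.MP_89b4a2_co.Denominators

open Pool.Agent.H14.QDiff Pool.Agent.H14.QRatio

/-- `γ'_n(a,b,c)`: coefficient of `z^n` in `₂φ₁(aq,b;cq;q,z) / ₂φ₁(a,b;c;q,z)` over `ℚ(a,b,c,q)` -/
noncomputable def gamma' (n : ℕ) : KK :=
  PowerSeries.coeff n (phi (v 0 * v 3) (v 1) (v 2 * v 3) (v 3)
    * (phi (v 0) (v 1) (v 2) (v 3))⁻¹)

theorem result (n : ℕ) : ∃ P : MvPolynomial (Fin 4) ℤ,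
    Dn (v 2) (v 3) n * gamma' n = (1 - v 2) * MvPolynomial.aeval v P := by
  obtain ⟨P, hP⟩ := main' (v 0) (v 1) (v 2) (v 3) (v_ne 3) (v_ne 2) SS (v_mem 0) (v_mem 1)
    (v_mem 2) (v_mem 3) n
  refine ⟨P, ?_⟩
  have h0 : 1 - v 2 ≠ 0 := by simpa using v_ne 2 0
  have : MvPolynomial.aeval v P
      = Dn (v 2) (v 3) n * PowerSeries.coeff n (hh' (v 0) (v 1) (v 2) (v 3)) := hP
  rw [this, hh', PowerSeries.coeff_C_mul, gamma']
  field_simp

end Pool.Agent.Results.MP_89b4a2_co.Denominators
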